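import Pool.Agent.DFM.Stmts

/-!
# Squad DFM, row DUA: duality
-/

set_option autoImplicit false

namespace Pool.Agent.DFM.H39

open OrderDual

theorem lcb_dual (P : Type) [PartialOrder P] (h : LCB P) : LCB Pᵒᵈ := by
  intro x y
  obtain ⟨n, hn⟩ := h (ofDual y) (ofDual x)
  refine ⟨n, fun c hc hch => ?_⟩
  refine hn c (fun z hz => ⟨(hc z hz).2, (hc z hz).1⟩) ?_
  intro a ha b hb hab
  rcases hch ha hb hab with h1 | h1
  · exact Or.inr h1
  · exact Or.inl h1

theorem dua : DuaStmt := by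
  intro P _
  refine ⟨lcb_dual P, rfl, rfl, ?_⟩
  rintro ⟨f, hf⟩
  refine ⟨fun x => -f (toDual x), fun x y hxy => ?_⟩
  have h := hf (toDual y) (toDual x) hxy
  exact neg_lt_neg h

end Pool.Agent.DFM.H39
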